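import Mathlib

set_option autoImplicit false
open Filter Topology

namespace Pool.Agent.Helper64.Hit

/-- restriction of a finitely supported vector to `[a, b)` -/
noncomputable def cut (a b : ℕ) (x : ℕ →₀ ℝ) : ℕ →₀ ℝ := x.filter (fun k => a ≤ k ∧ k < b)

/-- successive vectors -/
def Lt (x y : ℕ →₀ ℝ) : Prop := ∀ i ∈ x.support, ∀ j ∈ y.support, i < j

/-- block sequences -/
def Blk (y : ℕ → (ℕ →₀ ℝ)) : Prop := (∀ k, y k ≠ 0) ∧ ∀ k l, k < l → Lt (y k) (y l)

theorem exists_completion (N : (ℕ →₀ ℝ) → ℝ)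
    (n_add : ∀ x y, N (x + y) ≤ N x + N y)
    (n_smul : ∀ (a : ℝ) x, N (a • x) = |a| * N x)
    (n_coord : ∀ x k, |x k| ≤ N x) :
    ∃ (X : Type) (_ : NormedAddCommGroup X) (_ : NormedSpace ℝ X), CompleteSpace X ∧
      ∃ J : (ℕ →₀ ℝ) →ₗ[ℝ] X, (∀ x, ‖J x‖ = N x) ∧ DenseRange J := by
  let : Norm (ℕ →₀ ℝ) := ⟨N⟩
  have hN : ∀ x : ℕ →₀ ℝ, ‖x‖ = N x := fun _ => rfl
  have h0 : N 0 = 0 := by simpa using n_smul 0 0
  have hnn : ∀ x, 0 ≤ N x := fun x => (abs_nonneg _).trans (n_coord x 0)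
  have core : NormedSpace.Core ℝ (ℕ →₀ ℝ) :=
    { norm_nonneg := hnn
      norm_smul := fun c x => by rw [hN, hN, n_smul, Real.norm_eq_abs]
      norm_triangle := n_add
      norm_eq_zero_iff := fun x => by
        rw [hN]
        constructor
        · intro h
          ext k
          have := n_coord x k
          rw [h] at this
          simpa using abs_nonpos_iff.mp this
        · rintro rfl
          exact h0 }
  let : NormedAddCommGroup (ℕ →₀ ℝ) := NormedAddCommGroup.ofCore core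
  let : NormedSpace ℝ (ℕ →₀ ℝ) := NormedSpace.ofCore core
  refine ⟨UniformSpace.Completion (ℕ →₀ ℝ), inferInstance, inferInstance, inferInstance,
    (UniformSpace.Completion.toComplₗᵢ (𝕜 := ℝ) (E := ℕ →₀ ℝ)).toLinearMap, ?_, ?_⟩
  · intro x
    exact (UniformSpace.Completion.toComplₗᵢ (𝕜 := ℝ) (E := ℕ →₀ ℝ)).norm_map x
  · exact UniformSpace.Completion.denseRange_coe

/-- the completion together with its coordinate functionals and basis projections -/
structure Ctx (N : (ℕ →₀ ℝ) → ℝ) (X : Type) [NormedAddCommGroup X] [NormedSpace ℝ X] where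
  J : (ℕ →₀ ℝ) →ₗ[ℝ] X
  es : ℕ → (X →L[ℝ] ℝ)
  norm_J : ∀ x, ‖J x‖ = N x
  dense : DenseRange J
  es_J : ∀ n x, es n (J x) = x n
  P_le : ∀ a b x, ‖∑ k ∈ Finset.Ico a b, es k x • J (Finsupp.single k 1)‖ ≤ ‖x‖
  tend : ∀ x, Tendsto (fun n => ∑ k ∈ Finset.range n, es k x • J (Finsupp.single k 1)) atTop (𝓝 x)

theorem cut_apply (a b : ℕ) (x : ℕ →₀ ℝ) (k : ℕ) :
    cut a b x k = if a ≤ k ∧ k < b then x k else 0 := by
  classical
  simp [cut, Finsupp.filter_apply]

theorem cut_eq_sum (a b : ℕ) (x : ℕ →₀ ℝ) :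
    cut a b x = ∑ k ∈ Finset.Ico a b, x k • Finsupp.single k (1 : ℝ) := by
  classical
  ext i
  rw [cut_apply, Finsupp.finsetSum_apply]
  simp only [Finsupp.smul_apply, Finsupp.single_apply, smul_eq_mul, mul_ite, mul_one, mul_zero]
  rw [Finset.sum_ite_eq' (Finset.Ico a b) i (fun k => x k)]
  simp [Finset.mem_Ico]

theorem exists_ctx {N : (ℕ →₀ ℝ) → ℝ} {X : Type} [NormedAddCommGroup X] [NormedSpace ℝ X]
    [CompleteSpace X]
    (n_coord : ∀ x k, |x k| ≤ N x) (n_cut : ∀ x a b, N (cut a b x) ≤ N x)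
    (J : (ℕ →₀ ℝ) →ₗ[ℝ] X) (hJ : ∀ x, ‖J x‖ = N x) (hd : DenseRange J) :
    Nonempty (Ctx N X) := by
  classical
  let es : ℕ → (X →L[ℝ] ℝ) := fun n => (Finsupp.lapply n : (ℕ →₀ ℝ) →ₗ[ℝ] ℝ).extendOfNorm J
  have es_J : ∀ n x, es n (J x) = x n := by
    intro n x
    have := LinearMap.extendOfNorm_eq (f := (Finsupp.lapply n : (ℕ →₀ ℝ) →ₗ[ℝ] ℝ)) (e := J) hd
      ⟨1, fun x => by rw [hJ, one_mul]; exact n_coord x n⟩ x
    exact this
  have key : ∀ a b x, ∑ k ∈ Finset.Ico a b, es k (J x) • J (Finsupp.single k 1) = J (cut a b x) := by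
    intro a b x
    rw [cut_eq_sum, map_sum]
    refine Finset.sum_congr rfl fun k _ => ?_
    rw [es_J, map_smul]
  have P_le : ∀ a b x, ‖∑ k ∈ Finset.Ico a b, es k x • J (Finsupp.single k 1)‖ ≤ ‖x‖ := by
    intro a b x
    refine hd.induction_on (p := fun x => ‖∑ k ∈ Finset.Ico a b, es k x • J (Finsupp.single k 1)‖ ≤ ‖x‖)
      x ?_ ?_
    · exact isClosed_le (by fun_prop) (by fun_prop)
    · intro y
      rw [key, hJ, hJ]
      exact n_cut y a b
  refine ⟨⟨J, es, hJ, hd, es_J, P_le, ?_⟩⟩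
  intro x
  rw [Metric.tendsto_atTop]
  intro ε hε
  obtain ⟨y, hy⟩ := hd.exists_dist_lt x (half_pos hε)
  refine ⟨y.support.sup id + 1, fun n hn => ?_⟩
  have h1 : ∑ k ∈ Finset.range n, es k (J y) • J (Finsupp.single k 1) = J y := by
    rw [Finset.range_eq_Ico, key]
    congr 1
    ext i
    rw [cut_apply]
    split_ifs with h
    · rfl
    · by_contra h2
      have : i ∈ y.support := by
        rw [Finsupp.mem_support_iff]
        exact fun h3 => h2 h3.symm
      have h4 : i ≤ y.support.sup id := Finset.le_sup (f := id) this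
      apply h
      constructor
      · exact Nat.zero_le _
      · omega
  have h2 : ∑ k ∈ Finset.range n, es k x • J (Finsupp.single k 1) - J y
      = ∑ k ∈ Finset.range n, es k (x - J y) • J (Finsupp.single k 1) := by
    rw [← h1, ← Finset.sum_sub_distrib]
    refine Finset.sum_congr rfl fun k _ => ?_
    rw [h1, map_sub, sub_smul]
  rw [dist_eq_norm]
  have h3 : ‖∑ k ∈ Finset.range n, es k (x - J y) • J (Finsupp.single k 1)‖ ≤ ‖x - J y‖ := by
    rw [Finset.range_eq_Ico]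
    exact P_le 0 n (x - J y)
  rw [dist_eq_norm] at hy
  calc ‖∑ k ∈ Finset.range n, es k x • J (Finsupp.single k 1) - x‖
      = ‖(∑ k ∈ Finset.range n, es k x • J (Finsupp.single k 1) - J y) - (x - J y)‖ := by congr 1; abel
    _ ≤ ‖∑ k ∈ Finset.range n, es k x • J (Finsupp.single k 1) - J y‖ + ‖x - J y‖ := norm_sub_le _ _
    _ ≤ ‖x - J y‖ + ‖x - J y‖ := by rw [h2]; gcongr
    _ < ε := by linarith

/-- the Schauder basis -/
theorem Ctx.basis {N : (ℕ →₀ ℝ) → ℝ} {X : Type} [NormedAddCommGroup X] [NormedSpace ℝ X]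
    (S : Ctx N X) (x : X) : ∃! c : ℕ → ℝ,
        Tendsto (fun n => ∑ k ∈ Finset.range n, c k • S.J (Finsupp.single k 1)) atTop (𝓝 x) := by
  refine ⟨fun k => S.es k x, S.tend x, ?_⟩
  intro c hc
  funext k
  have h1 := ((S.es k).continuous.tendsto x).comp hc
  have h2 : Tendsto (fun n => (S.es k) (∑ j ∈ Finset.range n, c j • S.J (Finsupp.single j 1))) atTop (𝓝 (c k)) := by
    refine tendsto_const_nhds.congr' ?_
    filter_upwards [eventually_gt_atTop k] with n hn
    rw [map_sum]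
    rw [Finset.sum_eq_single k]
    · rw [map_smul, S.es_J]; simp
    · intro j _ hj
      rw [map_smul, S.es_J]
      simp [hj]
    · intro h
      exact absurd (Finset.mem_range.mpr hn) h
  exact tendsto_nhds_unique h2 h1

/-- block approximation of unit vectors in an infinite-dimensional subspace -/
theorem Ctx.pick {N : (ℕ →₀ ℝ) → ℝ} {X : Type} [NormedAddCommGroup X] [NormedSpace ℝ X]
    (S : Ctx N X) (Y : Submodule ℝ X) (hY : ¬ FiniteDimensional ℝ Y) (d : ℕ) (δ : ℝ) (hδ : 0 < δ) :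
    ∃ y ∈ Y, ‖y‖ = 1 ∧ ∃ x : ℕ →₀ ℝ, (∀ i ∈ x.support, d ≤ i) ∧ ‖y - S.J x‖ ≤ δ := by
  classical
  -- nontrivial kernel
  have h1 : ∃ y : Y, y ≠ 0 ∧ ∀ n < d, S.es n y = 0 := by
    by_contra hcon
    push Not at hcon
    apply hY
    let L : Y →ₗ[ℝ] (Fin d → ℝ) :=
      LinearMap.pi (fun i => ((S.es i.val).toLinearMap).comp Y.subtype)
    have hL : Function.Injective L := by
      rw [injective_iff_map_eq_zero]
      intro y hy
      by_contra hne
      obtain ⟨n, hn, hn2⟩ := hcon y hne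
      apply hn2
      have := congrFun hy ⟨n, hn⟩
      simpa [L] using this
    exact Module.Finite.of_injective L hL
  obtain ⟨y0, hy0, hyn⟩ := h1
  have hpos : 0 < ‖(y0 : X)‖ := norm_pos_iff.mpr (fun h => hy0 (Subtype.ext h))
  set y : X := ‖(y0 : X)‖⁻¹ • (y0 : X) with hydef
  have hyY : y ∈ Y := Y.smul_mem _ y0.2
  have hy1 : ‖y‖ = 1 := by
    rw [hydef, norm_smul, norm_inv, norm_norm, inv_mul_cancel₀ hpos.ne']
  have hyz : ∀ n < d, S.es n y = 0 := by
    intro n hn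
    rw [hydef, map_smul, hyn n hn, smul_zero]
  have ht := S.tend y
  rw [Metric.tendsto_atTop] at ht
  obtain ⟨m, hm⟩ := ht δ hδ
  have hm := hm m le_rfl
  refine ⟨y, hyY, hy1, ∑ k ∈ Finset.range m, S.es k y • Finsupp.single k (1 : ℝ), ?_, ?_⟩
  · intro i hi
    by_contra hid
    push Not at hid
    rw [Finsupp.mem_support_iff] at hi
    apply hi
    rw [Finsupp.finsetSum_apply]
    refine Finset.sum_eq_zero fun k _ => ?_
    rw [Finsupp.smul_apply, Finsupp.single_apply]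
    split_ifs with h
    · subst h
      rw [hyz k hid]; simp
    · simp
  · rw [map_sum, norm_sub_rev]
    simp_rw [map_smul]
    rw [dist_eq_norm] at hm
    exact hm.le

end Pool.Agent.Helper64.Hit
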