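import Pool.Agent.Helper32.Hit.A

set_option autoImplicit false
open Filter Topology

namespace Pool.Agent.Helper64.Hit

variable {N : (ℕ →₀ ℝ) → ℝ} {X : Type} [NormedAddCommGroup X] [NormedSpace ℝ X]

theorem Ctx.N_nonneg (S : Ctx N X) (x : ℕ →₀ ℝ) : 0 ≤ N x := by
  rw [← S.norm_J]; exact norm_nonneg _

theorem Ctx.N_smul (S : Ctx N X) (c : ℝ) (x : ℕ →₀ ℝ) : N (c • x) = |c| * N x := by
  rw [← S.norm_J, ← S.norm_J, map_smul, norm_smul, Real.norm_eq_abs]

theorem Ctx.N_add (S : Ctx N X) (x y : ℕ →₀ ℝ) : N (x + y) ≤ N x + N y := by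
  rw [← S.norm_J, ← S.norm_J, ← S.norm_J, map_add]; exact norm_add_le _ _

theorem Ctx.cut_le (S : Ctx N X) (a b : ℕ) (x : ℕ →₀ ℝ) : N (cut a b x) ≤ N x := by
  rw [← S.norm_J, ← S.norm_J]
  have := S.P_le a b (S.J x)
  have h2 : ∑ k ∈ Finset.Ico a b, S.es k (S.J x) • S.J (Finsupp.single k 1) = S.J (cut a b x) := by
    rw [cut_eq_sum, map_sum]
    refine Finset.sum_congr rfl fun k _ => ?_
    rw [S.es_J, map_smul]
  rwa [h2] at this

theorem Ctx.blocks (S : Ctx N X) (Y : Submodule ℝ X) (hY : ¬ FiniteDimensional ℝ Y)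
    (δ : ℕ → ℝ) (hδ : ∀ k, 0 < δ k) :
    ∃ (y : ℕ → X) (x : ℕ → (ℕ →₀ ℝ)) (D : ℕ → ℕ), StrictMono D ∧ (∀ k, y k ∈ Y) ∧
      (∀ k, ‖y k‖ = 1) ∧ (∀ k, ‖y k - S.J (x k)‖ ≤ δ k) ∧
      (∀ k, ∀ i ∈ (x k).support, D k ≤ i ∧ i < D (k + 1)) := by
  have h := fun (d k : ℕ) => S.pick Y hY d (δ k) (hδ k)
  choose py hpyY hpy1 px hpx1 hpx2 using h
  let D : ℕ → ℕ := fun n => Nat.rec 0 (fun k d => max (d + 1) ((px d k).support.sup id + 1)) n
  have hD : ∀ k, D (k + 1) = max (D k + 1) ((px (D k) k).support.sup id + 1) := fun k => rfl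
  refine ⟨fun k => py (D k) k, fun k => px (D k) k, D, strictMono_nat_of_lt_succ (fun k => ?_),
    fun k => hpyY _ _, fun k => hpy1 _ _, fun k => hpx2 _ _, fun k i hi => ⟨hpx1 _ _ i hi, ?_⟩⟩
  · have := hD k
    have h2 := le_max_left (D k + 1) ((px (D k) k).support.sup id + 1)
    omega
  · have h1 : i ≤ (px (D k) k).support.sup id := Finset.le_sup (f := id) hi
    have h2 := le_max_right (D k + 1) ((px (D k) k).support.sup id + 1)
    have := hD k
    omega

theorem Ctx.coef (S : Ctx N X) (x : ℕ → (ℕ →₀ ℝ)) (D : ℕ → ℕ) (hD : StrictMono D)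
    (hx : ∀ k, ∀ i ∈ (x k).support, D k ≤ i ∧ i < D (k + 1)) (s : Finset ℕ) (c : ℕ → ℝ)
    (k : ℕ) (hk : k ∈ s) : |c k| * N (x k) ≤ N (∑ l ∈ s, c l • x l) := by
  have h1 : cut (D k) (D (k + 1)) (∑ l ∈ s, c l • x l) = c k • x k := by
    ext i
    rw [cut_apply, Finsupp.finsetSum_apply]
    split_ifs with h
    · refine Finset.sum_eq_single k ?_ (fun h => absurd hk h)
      intro l _ hl
      rw [Finsupp.smul_apply]
      have : x l i = 0 := by
        by_contra h3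
        have h4 := hx l i (Finsupp.mem_support_iff.mpr h3)
        rcases lt_or_gt_of_ne hl with h5 | h5
        · have := hD.monotone (Nat.succ_le_of_lt h5)
          simp only [Nat.succ_eq_add_one] at this
          omega
        · have := hD.monotone (Nat.succ_le_of_lt h5)
          simp only [Nat.succ_eq_add_one] at this
          omega
      rw [this, smul_zero]
    · rw [Finsupp.smul_apply]
      have : x k i = 0 := by
        by_contra h3
        exact h (hx k i (Finsupp.mem_support_iff.mpr h3))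
      rw [this, smul_zero]
  have h2 := S.cut_le (D k) (D (k + 1)) (∑ l ∈ s, c l • x l)
  rwa [h1, S.N_smul] at h2

theorem sum_half_le (s : Finset ℕ) : ∑ k ∈ s, (1 / 2 : ℝ) ^ (k + 1) ≤ 1 := by
  have h1 : HasSum (fun n : ℕ => (1 / 2 : ℝ) ^ (n + 1)) 1 := by
    have := hasSum_geometric_two.mul_left (1 / 2 : ℝ)
    have h2 : (fun i : ℕ => (1 / 2 : ℝ) * (1 / 2) ^ i) = fun n => (1 / 2 : ℝ) ^ (n + 1) := by
      funext n; rw [pow_succ]; ring
    rw [h2] at this
    norm_num at this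
    simpa using this
  exact sum_le_hasSum s (fun i _ => by positivity) h1

theorem Ctx.transfer (S : Ctx N X) (U : Submodule ℝ X) (hU : ¬ FiniteDimensional ℝ U)
    (τ : ℝ) (hτ : 0 < τ) (hτ1 : τ ≤ 1) :
    ∃ x : ℕ → (ℕ →₀ ℝ), Blk x ∧ ∀ a ∈ Submodule.span ℝ (Set.range x),
      ∃ a' ∈ U, ‖a' - S.J a‖ ≤ τ * N a := by
  obtain ⟨y, x, D, hD, hyU, hy1, hyx, hsupp⟩ := S.blocks U hU (fun k => τ / 2 * (1 / 2) ^ (k + 1))
    (fun k => by positivity)
  have hN : ∀ k, 1 / 2 ≤ N (x k) := by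
    intro k
    have h1 := hyx k
    have h2 : ‖y k‖ ≤ ‖y k - S.J (x k)‖ + ‖S.J (x k)‖ := by
      have := norm_add_le (y k - S.J (x k)) (S.J (x k))
      rwa [sub_add_cancel] at this
    rw [hy1 k, S.norm_J] at h2
    have h3 : τ / 2 * (1 / 2 : ℝ) ^ (k + 1) ≤ 1 / 2 := by
      have : (1 / 2 : ℝ) ^ (k + 1) ≤ 1 := pow_le_one₀ (by norm_num) (by norm_num)
      nlinarith
    linarith
  refine ⟨x, ⟨?_, ?_⟩, ?_⟩
  · intro k hk
    have := hN k
    rw [hk] at this
    have h0 : N 0 = 0 := by simpa using S.N_smul 0 0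
    rw [h0] at this
    norm_num at this
  · intro k l hkl i hi j hj
    have h1 := hsupp k i hi
    have h2 := hsupp l j hj
    have := hD.monotone (Nat.succ_le_of_lt hkl)
    simp only [Nat.succ_eq_add_one] at this
    omega
  · intro a ha
    rw [Finsupp.mem_span_range_iff_exists_finsupp] at ha
    obtain ⟨c, rfl⟩ := ha
    refine ⟨∑ k ∈ c.support, c k • y k, U.sum_mem fun k _ => U.smul_mem _ (hyU k), ?_⟩
    set a : ℕ →₀ ℝ := c.sum fun i r => r • x i with hadef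
    have haeq : a = ∑ k ∈ c.support, c k • x k := rfl
    have h1 : ∑ k ∈ c.support, c k • y k - S.J a = ∑ k ∈ c.support, c k • (y k - S.J (x k)) := by
      rw [haeq, map_sum, ← Finset.sum_sub_distrib]
      refine Finset.sum_congr rfl fun k _ => ?_
      rw [map_smul, smul_sub]
    rw [h1]
    have hcoef : ∀ k ∈ c.support, |c k| ≤ 2 * N a := by
      intro k hk
      have := S.coef x D hD hsupp c.support c k hk
      rw [← haeq] at this
      have h2 := hN k
      nlinarith [abs_nonneg (c k)]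
    calc ‖∑ k ∈ c.support, c k • (y k - S.J (x k))‖
        ≤ ∑ k ∈ c.support, ‖c k • (y k - S.J (x k))‖ := norm_sum_le _ _
      _ ≤ ∑ k ∈ c.support, (2 * N a) * (τ / 2 * (1 / 2) ^ (k + 1)) := by
          refine Finset.sum_le_sum fun k hk => ?_
          rw [norm_smul, Real.norm_eq_abs]
          exact mul_le_mul (hcoef k hk) (hyx k) (norm_nonneg _) (by have := S.N_nonneg a; positivity)
      _ = τ * N a * ∑ k ∈ c.support, (1 / 2 : ℝ) ^ (k + 1) := by
          rw [Finset.mul_sum]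
          refine Finset.sum_congr rfl fun k _ => ?_
          ring
      _ ≤ τ * N a * 1 := by
          refine mul_le_mul_of_nonneg_left (sum_half_le _) ?_
          have := S.N_nonneg a
          positivity
      _ = τ * N a := mul_one _

/-- block HI transfers to all pairs of infinite-dimensional subspaces -/
theorem Ctx.core_hi (S : Ctx N X)
    (n_hi : ∀ y w : ℕ → (ℕ →₀ ℝ), Blk y → Blk w → ∀ ε : ℝ, 0 < ε →
      ∃ a ∈ Submodule.span ℝ (Set.range y), ∃ b ∈ Submodule.span ℝ (Set.range w),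
        N (a - b) < ε * N (a + b))
    (U W : Submodule ℝ X) (hU : ¬ FiniteDimensional ℝ U) (hW : ¬ FiniteDimensional ℝ W) (K : ℝ) :
    ∃ a ∈ U, ∃ b ∈ W, K * ‖a - b‖ < ‖a‖ + ‖b‖ := by
  set K' : ℝ := max K 1 with hK'
  have hK1 : 1 ≤ K' := le_max_right _ _
  have hKK : K ≤ K' := le_max_left _ _
  set τ : ℝ := 1 / (8 * K') with hτdef
  have hτ : 0 < τ := by positivity
  have hKτ : K' * τ = 1 / 8 := by rw [hτdef]; field_simp
  have hτ1 : τ ≤ 1 / 8 := by
    rw [← hKτ]; nlinarith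
  obtain ⟨x, hx, hxU⟩ := S.transfer U hU τ hτ (by linarith)
  obtain ⟨v, hv, hvW⟩ := S.transfer W hW τ hτ (by linarith)
  obtain ⟨a, ha, b, hb, hab⟩ := n_hi x v hx hv τ hτ
  obtain ⟨a', ha', haa⟩ := hxU a ha
  obtain ⟨b', hb', hbb⟩ := hvW b hb
  refine ⟨a', ha', b', hb', ?_⟩
  have h1 : ‖a' - b'‖ ≤ N (a - b) + τ * N a + τ * N b := by
    have e : a' - b' = S.J (a - b) + (a' - S.J a) - (b' - S.J b) := by rw [map_sub]; abel
    rw [e]
    calc ‖S.J (a - b) + (a' - S.J a) - (b' - S.J b)‖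
        ≤ ‖S.J (a - b) + (a' - S.J a)‖ + ‖b' - S.J b‖ := norm_sub_le _ _
      _ ≤ ‖S.J (a - b)‖ + ‖a' - S.J a‖ + ‖b' - S.J b‖ := by gcongr; exact norm_add_le _ _
      _ ≤ N (a - b) + τ * N a + τ * N b := by rw [S.norm_J]; gcongr
  have h2 : N a ≤ ‖a'‖ + τ * N a := by
    have : ‖S.J a‖ ≤ ‖a'‖ + ‖a' - S.J a‖ := by
      have := norm_sub_le a' (a' - S.J a)
      rwa [sub_sub_cancel] at this
    rw [S.norm_J] at this
    linarith
  have h3 : N b ≤ ‖b'‖ + τ * N b := by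
    have : ‖S.J b‖ ≤ ‖b'‖ + ‖b' - S.J b‖ := by
      have := norm_sub_le b' (b' - S.J b)
      rwa [sub_sub_cancel] at this
    rw [S.norm_J] at this
    linarith
  have h4 : N (a + b) ≤ N a + N b := S.N_add a b
  have h5 : 0 ≤ N a := S.N_nonneg a
  have h6 : 0 ≤ N b := S.N_nonneg b
  have h7 : 0 ≤ N (a - b) := S.N_nonneg _
  have h8 : 0 < N a + N b := by
    by_contra hcon
    push Not at hcon
    have : N (a + b) ≤ 0 := h4.trans hcon
    nlinarith
  have h9 : ‖a' - b'‖ ≤ 2 * τ * (N a + N b) := by nlinarith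
  have h10 : K * ‖a' - b'‖ ≤ K' * ‖a' - b'‖ := mul_le_mul_of_nonneg_right hKK (norm_nonneg _)
  have h11 : K' * ‖a' - b'‖ ≤ K' * (2 * τ * (N a + N b)) := mul_le_mul_of_nonneg_left h9 (by linarith)
  have h12 : K' * (2 * τ * (N a + N b)) = 1 / 4 * (N a + N b) := by
    rw [show K' * (2 * τ * (N a + N b)) = (K' * τ) * 2 * (N a + N b) by ring, hKτ]; ring
  have h13 : τ * N a ≤ 1 / 8 * N a := mul_le_mul_of_nonneg_right hτ1 h5
  have h14 : τ * N b ≤ 1 / 8 * N b := mul_le_mul_of_nonneg_right hτ1 h6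
  linarith

/-- no two disjoint closed infinite-dimensional subspaces have a closed sum -/
theorem Ctx.hi [CompleteSpace X] (S : Ctx N X)
    (n_hi : ∀ y w : ℕ → (ℕ →₀ ℝ), Blk y → Blk w → ∀ ε : ℝ, 0 < ε →
      ∃ a ∈ Submodule.span ℝ (Set.range y), ∃ b ∈ Submodule.span ℝ (Set.range w),
        N (a - b) < ε * N (a + b))
    (U W : Submodule ℝ X) (hUc : IsClosed (U : Set X)) (hWc : IsClosed (W : Set X))
    (hU : ¬ FiniteDimensional ℝ U) (hW : ¬ FiniteDimensional ℝ W) (hUW : Disjoint U W) :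
    ¬ IsClosed ((U ⊔ W : Submodule ℝ X) : Set X) := by
  intro hcl
  have : CompleteSpace U := hUc.completeSpace_coe
  have : CompleteSpace W := hWc.completeSpace_coe
  let f : (U × W) →L[ℝ] X := U.subtypeL.coprod (-W.subtypeL)
  have hf : ∀ p : U × W, f p = (p.1 : X) - (p.2 : X) := by
    intro p
    simp [f, sub_eq_add_neg]
  have hinj : Function.Injective f := by
    rw [injective_iff_map_eq_zero]
    rintro ⟨u, w⟩ h
    rw [hf] at h
    simp only at h
    have h1 : (u : X) = w := sub_eq_zero.mp h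
    have h2 : (u : X) ∈ U ⊓ W := ⟨u.2, h1 ▸ w.2⟩
    rw [hUW.eq_bot] at h2
    have h3 : (u : X) = 0 := by simpa using h2
    have h4 : (w : X) = 0 := by rw [← h1]; exact h3
    ext
    · exact h3
    · exact h4
  have hrange : Set.range f = ((U ⊔ W : Submodule ℝ X) : Set X) := by
    ext z
    constructor
    · rintro ⟨p, rfl⟩
      rw [hf]
      exact Submodule.sub_mem _ (Submodule.mem_sup_left p.1.2) (Submodule.mem_sup_right p.2.2)
    · intro hz
      obtain ⟨u, hu, w, hw, rfl⟩ := Submodule.mem_sup.mp hz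
      refine ⟨(⟨u, hu⟩, ⟨-w, W.neg_mem hw⟩), ?_⟩
      rw [hf]
      simp
  obtain ⟨K, hK⟩ := f.antilipschitz_of_injective_of_isClosed_range hinj (by rw [hrange]; exact hcl)
  obtain ⟨a, ha, b, hb, hab⟩ := S.core_hi n_hi U W hU hW (2 * K)
  have h1 := hK.le_mul_dist ((⟨a, ha⟩, ⟨b, hb⟩) : U × W) 0
  rw [dist_zero_right, map_zero, dist_zero_right, hf] at h1
  have h2 : ‖a‖ ≤ ‖((⟨a, ha⟩, ⟨b, hb⟩) : U × W)‖ := by
    rw [Prod.norm_def]; exact le_max_left _ _
  have h3 : ‖b‖ ≤ ‖((⟨a, ha⟩, ⟨b, hb⟩) : U × W)‖ := by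
    rw [Prod.norm_def]; exact le_max_right _ _
  simp only at h1
  linarith

end Pool.Agent.Helper64.Hit
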