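import Pool.Agent.Helper32.Hit.B

set_option autoImplicit false
open Filter Topology

namespace Pool.Agent.Helper64.Hit

/-- the statement of the l1 extraction theorem (module H1) -/
def L1Extract : Prop := ∀ (X : Type) [NormedAddCommGroup X] [NormedSpace ℝ X] (u : ℕ → X) (δ C : ℝ),
    0 < δ → (∀ n, ‖u n‖ ≤ 1) →
    (∀ M : ℕ, ∃ (m : ℕ) (f : Fin m → ℕ → ℝ), ∀ c : ℕ → ℝ,
      ‖∑ j ∈ Finset.range M, c j • u j‖ ≤ ∑ i, |∑ j ∈ Finset.range M, c j * f i j| ∧
      ∑ i, |∑ j ∈ Finset.range M, c j * f i j| ≤ C * ‖∑ j ∈ Finset.range M, c j • u j‖) →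
    (∀ n : ℕ, ∀ s : Finset ℕ, s.card ≤ n → (∀ i ∈ s, n ≤ i) → ∀ c : ℕ → ℝ,
      δ * ∑ i ∈ s, |c i| ≤ ‖∑ i ∈ s, c i • u i‖) →
    ∃ φ : ℕ → ℕ, StrictMono φ ∧ ∃ δ' : ℝ, 0 < δ' ∧ ∀ (s : Finset ℕ) (c : ℕ → ℝ),
      δ' * ∑ k ∈ s, |c k| ≤ ‖∑ k ∈ s, c k • u (φ k)‖

variable {N : (ℕ →₀ ℝ) → ℝ} {X : Type} [NormedAddCommGroup X] [NormedSpace ℝ X]

/-- a sequence of unit vectors with a lower l1 estimate contradicts the HI property -/
theorem Ctx.no_l1 (S : Ctx N X)
    (n_hi : ∀ y w : ℕ → (ℕ →₀ ℝ), Blk y → Blk w → ∀ ε : ℝ, 0 < ε →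
      ∃ a ∈ Submodule.span ℝ (Set.range y), ∃ b ∈ Submodule.span ℝ (Set.range w),
        N (a - b) < ε * N (a + b))
    (u : ℕ → X) (hu : ∀ n, ‖u n‖ ≤ 1) (δ : ℝ) (hδ : 0 < δ)
    (h : ∀ (s : Finset ℕ) (c : ℕ → ℝ), δ * ∑ k ∈ s, |c k| ≤ ‖∑ k ∈ s, c k • u k‖) : False := by
  classical
  have hli : LinearIndependent ℝ u := by
    rw [linearIndependent_iff']
    intro s g hg i hi
    have h1 := h s g
    rw [hg, norm_zero] at h1
    have h2 : ∑ k ∈ s, |g k| ≤ 0 := by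
      by_contra hc
      push Not at hc
      have := mul_pos hδ hc
      linarith
    have h3 := Finset.single_le_sum (f := fun k => |g k|) (fun k _ => abs_nonneg _) hi
    exact abs_nonpos_iff.mp (h3.trans h2)
  have hinf : ∀ ψ : ℕ → ℕ, Function.Injective ψ →
      ¬ FiniteDimensional ℝ (Submodule.span ℝ (Set.range (fun k => u (ψ k)))) := by
    intro ψ hψ hfd
    have h1 : LinearIndependent ℝ (fun k => u (ψ k)) := hli.comp ψ hψ
    have h2 := linearIndependent_span h1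
    have h3 := h2.lt_aleph0_of_finiteDimensional
    rw [Cardinal.mk_nat] at h3
    exact lt_irrefl _ h3
  have he : Function.Injective (fun k : ℕ => 2 * k) := fun a b hab => by simpa using hab
  have ho : Function.Injective (fun k : ℕ => 2 * k + 1) := fun a b hab => by simpa using hab
  obtain ⟨a, ha, b, hb, hab⟩ := S.core_hi n_hi _ _ (hinf _ he) (hinf _ ho) (1 / δ)
  rw [Finsupp.mem_span_range_iff_exists_finsupp] at ha hb
  obtain ⟨α, rfl⟩ := ha
  obtain ⟨β, rfl⟩ := hb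
  set A : Finset ℕ := α.support with hA
  set B : Finset ℕ := β.support with hB
  have ea : (α.sum fun i r => r • u (2 * i)) = ∑ k ∈ A, α k • u (2 * k) := rfl
  have eb : (β.sum fun i r => r • u (2 * i + 1)) = ∑ k ∈ B, β k • u (2 * k + 1) := rfl
  rw [ea, eb] at hab
  let c : ℕ → ℝ := fun n => if n % 2 = 0 then α (n / 2) else -β (n / 2)
  have hce : ∀ k, c (2 * k) = α k := by
    intro k
    have h1 : 2 * k % 2 = 0 := by omega
    have h2 : 2 * k / 2 = k := by omega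
    simp only [c, h1, h2, if_true]
  have hco : ∀ k, c (2 * k + 1) = -β k := by
    intro k
    have h1 : ¬ (2 * k + 1) % 2 = 0 := by omega
    have h2 : (2 * k + 1) / 2 = k := by omega
    simp only [c, h2, if_neg h1]
  have hdisj : Disjoint (A.image (fun k => 2 * k)) (B.image (fun k => 2 * k + 1)) := by
    rw [Finset.disjoint_left]
    intro n hn hn2
    rw [Finset.mem_image] at hn hn2
    obtain ⟨i, _, hi⟩ := hn
    obtain ⟨j, _, hj⟩ := hn2
    omega
  have h1 := h (A.image (fun k => 2 * k) ∪ B.image (fun k => 2 * k + 1)) c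
  rw [Finset.sum_union hdisj, Finset.sum_union hdisj,
    Finset.sum_image (fun x _ y _ hxy => he hxy), Finset.sum_image (fun x _ y _ hxy => ho hxy),
    Finset.sum_image (fun x _ y _ hxy => he hxy), Finset.sum_image (fun x _ y _ hxy => ho hxy)] at h1
  simp only [hce, hco, abs_neg, neg_smul, Finset.sum_neg_distrib] at h1
  rw [← sub_eq_add_neg] at h1
  have h2 : ‖∑ k ∈ A, α k • u (2 * k)‖ ≤ ∑ k ∈ A, |α k| := by
    refine (norm_sum_le _ _).trans (Finset.sum_le_sum fun k _ => ?_)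
    rw [norm_smul, Real.norm_eq_abs]
    exact mul_le_of_le_one_right (abs_nonneg _) (hu _)
  have h3 : ‖∑ k ∈ B, β k • u (2 * k + 1)‖ ≤ ∑ k ∈ B, |β k| := by
    refine (norm_sum_le _ _).trans (Finset.sum_le_sum fun k _ => ?_)
    rw [norm_smul, Real.norm_eq_abs]
    exact mul_le_of_le_one_right (abs_nonneg _) (hu _)
  have h4 : (∑ k ∈ A, |α k| + ∑ k ∈ B, |β k|)
      ≤ 1 / δ * ‖∑ k ∈ A, α k • u (2 * k) - ∑ k ∈ B, β k • u (2 * k + 1)‖ := by
    rw [one_div, ← div_eq_inv_mul, le_div_iff₀ hδ, mul_comm]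
    exact h1
  linarith

/-- elements of `span (e '' A)` come from finitely supported vectors supported in `A` -/
theorem Ctx.span_supp (S : Ctx N X) (A : Set ℕ) (v : X)
    (hv : v ∈ Submodule.span ℝ ((fun n => S.J (Finsupp.single n 1)) '' A)) :
    ∃ z : ℕ →₀ ℝ, (∀ i ∈ z.support, i ∈ A) ∧ S.J z = v := by
  have h1 : (fun n => S.J (Finsupp.single n 1)) '' A
      = S.J '' ((fun n => (Finsupp.single n (1 : ℝ))) '' A) := by
    rw [Set.image_image]
  rw [h1, ← Submodule.map_span] at hv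
  obtain ⟨z, hz, rfl⟩ := hv
  refine ⟨z, ?_, rfl⟩
  have hz' : z ∈ Submodule.span ℝ ((fun n => (Finsupp.single n (1 : ℝ))) '' A) := hz
  rw [← Finsupp.supported_eq_span_single] at hz'
  intro i hi
  exact (Finsupp.mem_supported ℝ z).mp hz' hi

end Pool.Agent.Helper64.Hit
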