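import Pool.Agent.Helper32.Hit.C

set_option autoImplicit false
open Filter Topology

namespace Pool.Agent.Helper64.Hit

variable {N : (ℕ →₀ ℝ) → ℝ} {X : Type} [NormedAddCommGroup X] [NormedSpace ℝ X]

/-- the tail of a finitely supported vector -/
noncomputable def tail (d : ℕ) (z : ℕ →₀ ℝ) : ℕ →₀ ℝ := z - cut 0 d z

theorem tail_apply (d : ℕ) (z : ℕ →₀ ℝ) (i : ℕ) : tail d z i = if i < d then 0 else z i := by
  rw [tail, Finsupp.sub_apply, cut_apply]
  by_cases h : i < d <;> simp [h]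

theorem tail_sum (d M : ℕ) (c : ℕ → ℝ) (z : ℕ → (ℕ →₀ ℝ)) :
    tail d (∑ j ∈ Finset.range M, c j • z j) = ∑ j ∈ Finset.range M, c j • tail d (z j) := by
  ext i
  rw [tail_apply, Finsupp.finsetSum_apply, Finsupp.finsetSum_apply]
  split_ifs with h
  · symm
    refine Finset.sum_eq_zero fun j _ => ?_
    rw [Finsupp.smul_apply, tail_apply, if_pos h, smul_zero]
  · refine Finset.sum_congr rfl fun j _ => ?_
    rw [Finsupp.smul_apply, Finsupp.smul_apply, tail_apply, if_neg h]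

theorem Ctx.tail_le (S : Ctx N X) (d : ℕ) (z : ℕ →₀ ℝ) : N (tail d z) ≤ 2 * N z := by
  have h1 := S.cut_le 0 d z
  have h2 : ‖S.J (tail d z)‖ ≤ ‖S.J z‖ + ‖S.J (cut 0 d z)‖ := by
    rw [tail, map_sub]; exact norm_sub_le _ _
  rw [S.norm_J, S.norm_J, S.norm_J] at h2
  linarith

theorem Ctx.coord_le (S : Ctx N X) (n : ℕ) (z : ℕ →₀ ℝ) :
    |z n| * N (Finsupp.single n 1) ≤ N z := by
  have h1 := S.P_le n (n + 1) (S.J z)
  rw [S.norm_J] at h1
  simp only [Nat.Ico_succ_singleton, Finset.sum_singleton] at h1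
  rwa [norm_smul, S.es_J, Real.norm_eq_abs, S.norm_J] at h1

theorem Ctx.le_head_tail (S : Ctx N X) (d : ℕ) (z : ℕ →₀ ℝ) :
    N z ≤ ∑ n ∈ Finset.range d, |z n| * N (Finsupp.single n 1) + N (tail d z) := by
  have h1 : z = cut 0 d z + tail d z := by rw [tail]; abel
  have h2 : N z ≤ N (cut 0 d z) + N (tail d z) := by
    conv_lhs => rw [h1]
    exact S.N_add _ _
  have h3 : N (cut 0 d z) ≤ ∑ n ∈ Finset.range d, |z n| * N (Finsupp.single n 1) := by
    rw [← S.norm_J, cut_eq_sum, map_sum, ← Finset.range_eq_Ico]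
    refine (norm_sum_le _ _).trans (Finset.sum_le_sum fun n _ => ?_)
    rw [S.norm_J, S.N_smul]
  linarith

theorem Ctx.C_pos (S : Ctx N X) (C : ℝ)
    (n_low : ∀ n : ℕ, ∀ s : Finset ℕ, s.card ≤ n → ∀ x : ℕ → (ℕ →₀ ℝ),
      (∀ k ∈ s, ∀ i ∈ (x k).support, n ≤ i) → (∀ k ∈ s, ∀ l ∈ s, k < l → Lt (x k) (x l)) →
      ∑ k ∈ s, N (x k) ≤ C * N (∑ k ∈ s, x k)) : 1 ≤ C := by
  have h := n_low 1 {0} (by simp) (fun _ => Finsupp.single 1 1) ?_ ?_
  · simp only [Finset.sum_singleton] at h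
    have hne : S.J (Finsupp.single 1 (1 : ℝ)) ≠ 0 := by
      intro h0
      have h2 := S.es_J 1 (Finsupp.single 1 (1 : ℝ))
      rw [h0, map_zero] at h2
      simp at h2
    have hpos : 0 < N (Finsupp.single 1 (1 : ℝ)) := by
      rw [← S.norm_J]; exact norm_pos_iff.mpr hne
    by_contra hc
    push Not at hc
    nlinarith
  · intro k _ i hi
    have := Finsupp.support_single_subset hi
    simp only [Finset.mem_singleton] at this
    omega
  · intro k hk l hl hkl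
    simp only [Finset.mem_singleton] at hk hl
    omega

theorem Ctx.tight (H1 : L1Extract) (S : Ctx N X) (C : ℝ)
    (n_low : ∀ n : ℕ, ∀ s : Finset ℕ, s.card ≤ n → ∀ x : ℕ → (ℕ →₀ ℝ),
      (∀ k ∈ s, ∀ i ∈ (x k).support, n ≤ i) → (∀ k ∈ s, ∀ l ∈ s, k < l → Lt (x k) (x l)) →
      ∑ k ∈ s, N (x k) ≤ C * N (∑ k ∈ s, x k))
    (n_hi : ∀ y w : ℕ → (ℕ →₀ ℝ), Blk y → Blk w → ∀ ε : ℝ, 0 < ε →
      ∃ a ∈ Submodule.span ℝ (Set.range y), ∃ b ∈ Submodule.span ℝ (Set.range w),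
        N (a - b) < ε * N (a + b))
    (n_join : ∀ M : ℕ, ∃ N0 : ℕ, ∀ x : Fin M → (ℕ →₀ ℝ), (∀ j, ∀ i ∈ (x j).support, N0 ≤ i) →
      ∃ (m : ℕ) (f : Fin m → ((ℕ →₀ ℝ) →ₗ[ℝ] ℝ)), ∀ c : Fin M → ℝ,
        N (∑ j, c j • x j) ≤ ∑ i, |f i (∑ j, c j • x j)| ∧
        ∑ i, |f i (∑ j, c j • x j)| ≤ C * N (∑ j, c j • x j))
    (Y : Submodule ℝ X) (hY : ¬ FiniteDimensional ℝ Y) (K d : ℕ) :
    ∃ b, d ≤ b ∧ ¬ ∃ T : Y →L[ℝ] X,
      (∀ y : Y, ‖y‖ ≤ ‖T y‖ ∧ ‖T y‖ ≤ (K : ℝ) * ‖y‖) ∧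
      ∀ y : Y, T y ∈ (Submodule.span ℝ ((fun n => S.J (Finsupp.single n 1)) ''
        {n | n < d ∨ b < n})).topologicalClosure := by
  classical
  by_contra hcon
  push Not at hcon
  have hC := S.C_pos C n_low
  obtain ⟨y, x, D, hD, hyY, hy1, hyx, hsupp⟩ := S.blocks Y hY
    (fun k => 1 / (8 * C) * (1 / 2) ^ (k + 1)) (fun k => by positivity)
  have hpow : ∀ k : ℕ, (1 / 2 : ℝ) ^ (k + 1) ≤ 1 := fun k => pow_le_one₀ (by norm_num) (by norm_num)
  have hC8 : 1 / (8 * C) ≤ 1 / 8 := by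
    rw [div_le_div_iff₀ (by positivity) (by norm_num)]; linarith
  have hCC8 : C * (1 / (8 * C)) = 1 / 8 := by field_simp
  have hC8pos : 0 < 1 / (8 * C) := by positivity
  have hN : ∀ k, 1 / 2 ≤ N (x k) := by
    intro k
    have h1 := hyx k
    have h2 : ‖y k‖ ≤ ‖y k - S.J (x k)‖ + ‖S.J (x k)‖ := by
      have := norm_add_le (y k - S.J (x k)) (S.J (x k))
      rwa [sub_add_cancel] at this
    rw [hy1 k, S.norm_J] at h2
    have h3 : 1 / (8 * C) * (1 / 2 : ℝ) ^ (k + 1) ≤ 1 / 8 := by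
      calc 1 / (8 * C) * (1 / 2 : ℝ) ^ (k + 1) ≤ 1 / (8 * C) * 1 :=
            mul_le_mul_of_nonneg_left (hpow k) hC8pos.le
        _ ≤ 1 / 8 := by linarith
    linarith
  have hdk : ∀ k ≥ 0, k ≤ D k := fun k _ => hD.id_le k
  -- difference of combinations
  have hdiff : ∀ (s : Finset ℕ) (c : ℕ → ℝ),
      ‖∑ k ∈ s, c k • y k - S.J (∑ k ∈ s, c k • x k)‖
        ≤ ∑ k ∈ s, |c k| * (1 / (8 * C) * (1 / 2) ^ (k + 1)) := by
    intro s c
    have h1 : ∑ k ∈ s, c k • y k - S.J (∑ k ∈ s, c k • x k) = ∑ k ∈ s, c k • (y k - S.J (x k)) := by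
      rw [map_sum, ← Finset.sum_sub_distrib]
      refine Finset.sum_congr rfl fun k _ => ?_
      rw [map_smul, smul_sub]
    rw [h1]
    refine (norm_sum_le _ _).trans (Finset.sum_le_sum fun k _ => ?_)
    rw [norm_smul, Real.norm_eq_abs]
    exact mul_le_mul_of_nonneg_left (hyx k) (abs_nonneg _)
  have hJle : ∀ (s : Finset ℕ) (c : ℕ → ℝ),
      N (∑ k ∈ s, c k • x k) ≤ ‖∑ k ∈ s, c k • y k‖
        + ∑ k ∈ s, |c k| * (1 / (8 * C) * (1 / 2) ^ (k + 1)) := by
    intro s c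
    have h1 := hdiff s c
    have h2 : ‖S.J (∑ k ∈ s, c k • x k)‖ ≤ ‖∑ k ∈ s, c k • y k‖
        + ‖∑ k ∈ s, c k • y k - S.J (∑ k ∈ s, c k • x k)‖ := by
      have := norm_sub_le (∑ k ∈ s, c k • y k) (∑ k ∈ s, c k • y k - S.J (∑ k ∈ s, c k • x k))
      rwa [sub_sub_cancel] at this
    rw [S.norm_J] at h2
    linarith
  -- coefficient bound
  have hcoef : ∀ (s : Finset ℕ) (c : ℕ → ℝ), ∀ k ∈ s, |c k| ≤ 4 * ‖∑ k ∈ s, c k • y k‖ := by
    intro s c k hk
    obtain ⟨k0, hk0, hmax⟩ := Finset.exists_max_image s (fun k => |c k|) ⟨k, hk⟩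
    have h1 := S.coef x D hD hsupp s c k0 hk0
    have h2 := hJle s c
    have h3 : ∑ k ∈ s, |c k| * (1 / (8 * C) * (1 / 2) ^ (k + 1)) ≤ |c k0| * (1 / 8) := by
      calc ∑ k ∈ s, |c k| * (1 / (8 * C) * (1 / 2) ^ (k + 1))
          ≤ ∑ k ∈ s, |c k0| * (1 / 8) * (1 / 2) ^ (k + 1) := by
            refine Finset.sum_le_sum fun l hl => ?_
            rw [← mul_assoc]
            refine mul_le_mul_of_nonneg_right ?_ (by positivity)
            exact mul_le_mul (hmax l hl) hC8 hC8pos.le (abs_nonneg _)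
        _ = |c k0| * (1 / 8) * ∑ k ∈ s, (1 / 2 : ℝ) ^ (k + 1) := by rw [Finset.mul_sum]
        _ ≤ |c k0| * (1 / 8) * 1 := mul_le_mul_of_nonneg_left (sum_half_le s) (by positivity)
        _ = |c k0| * (1 / 8) := mul_one _
    have h4 := hN k0
    have h5 : |c k0| * (1 / 2) ≤ |c k0| * N (x k0) := mul_le_mul_of_nonneg_left h4 (abs_nonneg _)
    have h6 := hmax k hk
    have h7 := norm_nonneg (∑ k ∈ s, c k • y k)
    linarith
  -- Schreier lower estimate
  have hlow : ∀ n : ℕ, ∀ s : Finset ℕ, s.card ≤ n → (∀ i ∈ s, n ≤ i) → ∀ c : ℕ → ℝ,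
      1 / (4 * C) * ∑ i ∈ s, |c i| ≤ ‖∑ i ∈ s, c i • y i‖ := by
    intro n s hs hns c
    have h1 := n_low n s hs (fun k => c k • x k) ?_ ?_
    · have h2 := hJle s c
      have h3 : ∑ k ∈ s, |c k| * (1 / (8 * C) * (1 / 2) ^ (k + 1)) ≤ 1 / (8 * C) * ∑ k ∈ s, |c k| := by
        rw [Finset.mul_sum]
        refine Finset.sum_le_sum fun k _ => ?_
        have := mul_le_mul_of_nonneg_left (hpow k) (mul_nonneg (abs_nonneg (c k)) hC8pos.le)
        nlinarith
      have h4 : 1 / 2 * ∑ k ∈ s, |c k| ≤ ∑ k ∈ s, N (c k • x k) := by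
        rw [Finset.mul_sum]
        refine Finset.sum_le_sum fun k _ => ?_
        rw [S.N_smul]
        have := mul_le_mul_of_nonneg_left (hN k) (abs_nonneg (c k))
        linarith
      have h5 : C * N (∑ k ∈ s, c k • x k)
          ≤ C * ‖∑ k ∈ s, c k • y k‖ + 1 / 8 * ∑ k ∈ s, |c k| := by
        have := mul_le_mul_of_nonneg_left (h2.trans (add_le_add_right h3 _)) (by linarith : (0:ℝ) ≤ C)
        rw [mul_add, ← mul_assoc C (1 / (8 * C)), hCC8] at this
        exact this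
      have h6 : 0 ≤ ∑ k ∈ s, |c k| := Finset.sum_nonneg fun k _ => abs_nonneg _
      have h7 : 1 / 4 * ∑ k ∈ s, |c k| ≤ C * ‖∑ k ∈ s, c k • y k‖ := by linarith
      rw [show 1 / (4 * C) * ∑ i ∈ s, |c i| = (1 / 4 * ∑ i ∈ s, |c i|) / C by field_simp,
        div_le_iff₀ (by linarith), mul_comm _ C]
      exact h7
    · intro k hk i hi
      have h1 : i ∈ (x k).support := Finsupp.support_smul hi
      have h2 := (hsupp k i h1).1
      have h3 := hns k hk
      have h4 := hD.id_le k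
      simp only [id] at h4
      omega
    · intro k _ l _ hkl i hi j hj
      have h1 := hsupp k i (Finsupp.support_smul hi)
      have h2 := hsupp l j (Finsupp.support_smul hj)
      have := hD.monotone (Nat.succ_le_of_lt hkl)
      simp only [Nat.succ_eq_add_one] at this
      omega
  -- uniform forms
  have hform : ∀ M : ℕ, ∃ (m : ℕ) (f : Fin m → ℕ → ℝ), ∀ c : ℕ → ℝ,
      ‖∑ j ∈ Finset.range M, c j • y j‖ ≤ ∑ i, |∑ j ∈ Finset.range M, c j * f i j| ∧
      ∑ i, |∑ j ∈ Finset.range M, c j * f i j|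
        ≤ ((2 * d + 4 * C) * (K + 1)) * ‖∑ j ∈ Finset.range M, c j • y j‖ := by
    intro M
    obtain ⟨N0, hN0⟩ := n_join M
    obtain ⟨T, hT1, hT2⟩ := hcon (max d N0) (le_max_left _ _)
    set η : ℝ := 1 / (8 * (M + 1)) with hη
    have hηpos : 0 < η := by positivity
    have happ : ∀ j : ℕ, ∃ z : ℕ →₀ ℝ, (∀ i ∈ z.support, i < d ∨ max d N0 < i) ∧
        ‖T ⟨y j, hyY j⟩ - S.J z‖ ≤ η := by
      intro j
      have h1 := hT2 ⟨y j, hyY j⟩
      rw [← SetLike.mem_coe, Submodule.topologicalClosure_coe] at h1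
      obtain ⟨v, hv, hvd⟩ := Metric.mem_closure_iff.mp h1 η hηpos
      obtain ⟨z, hz, hzv⟩ := S.span_supp _ v hv
      refine ⟨z, hz, ?_⟩
      rw [hzv, ← dist_eq_norm]
      exact hvd.le
    choose z hz1 hz2 using happ
    obtain ⟨m, f, hf⟩ := hN0 (fun j : Fin M => tail d (z j)) (by
      intro j i hi
      rw [Finsupp.mem_support_iff, tail_apply] at hi
      have h1 : ¬ i < d := by
        intro h; rw [if_pos h] at hi; exact hi rfl
      rw [if_neg h1] at hi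
      have h2 := hz1 j i (Finsupp.mem_support_iff.mpr hi)
      have h3 := le_max_right d N0
      omega)
    refine ⟨d + m, fun i j => Fin.addCases (motive := fun _ => ℝ)
      (fun n : Fin d => 2 * N (Finsupp.single (n : ℕ) 1) * z j n)
      (fun i : Fin m => 2 * f i (tail d (z j))) i, ?_⟩
    intro c
    set zz : ℕ →₀ ℝ := ∑ j ∈ Finset.range M, c j • z j with hzz
    set yy : X := ∑ j ∈ Finset.range M, c j • y j with hyy
    -- the form
    have hsum : ∑ i : Fin (d + m), |∑ j ∈ Finset.range M, c j * (Fin.addCases (motive := fun _ => ℝ)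
        (fun n : Fin d => 2 * N (Finsupp.single (n : ℕ) 1) * z j n)
        (fun i : Fin m => 2 * f i (tail d (z j))) i)|
        = 2 * ∑ n ∈ Finset.range d, |zz n| * N (Finsupp.single n 1)
          + 2 * ∑ i : Fin m, |f i (tail d zz)| := by
      rw [Fin.sum_univ_add]
      simp only [Fin.addCases_left, Fin.addCases_right]
      congr 1
      · rw [Finset.sum_range, Finset.mul_sum]
        refine Finset.sum_congr rfl fun n _ => ?_
        have h1 : zz (n : ℕ) = ∑ j ∈ Finset.range M, c j * z j n := by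
          rw [hzz, Finsupp.finsetSum_apply]
          rfl
        rw [h1]
        have h2 : ∑ j ∈ Finset.range M, c j * (2 * N (Finsupp.single (n : ℕ) 1) * z j n)
            = (2 * N (Finsupp.single (n : ℕ) 1)) * ∑ j ∈ Finset.range M, c j * z j n := by
          rw [Finset.mul_sum]
          refine Finset.sum_congr rfl fun j _ => ?_
          ring
        rw [h2, abs_mul, abs_of_nonneg (by have := S.N_nonneg (Finsupp.single (n : ℕ) 1); positivity)]
        ring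
      · rw [Finset.mul_sum]
        refine Finset.sum_congr rfl fun i _ => ?_
        have h2 : ∑ j ∈ Finset.range M, c j * (2 * f i (tail d (z j))) = 2 * f i (tail d zz) := by
          rw [hzz, tail_sum, map_sum, Finset.mul_sum]
          refine Finset.sum_congr rfl fun j _ => ?_
          rw [map_smul, smul_eq_mul]
          ring
        rw [h2, abs_mul, abs_of_pos (by norm_num : (0 : ℝ) < 2)]
    rw [hsum]
    have hf' := hf (fun j => c j)
    have htail : ∑ j : Fin M, c j • tail d (z j) = tail d zz := by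
      rw [hzz, tail_sum, Finset.sum_range]
    simp only [htail] at hf'
    -- comparison of yy and zz
    let YY : Y := ∑ j ∈ Finset.range M, c j • (⟨y j, hyY j⟩ : Y)
    have hYY : (YY : X) = yy := by
      simp only [YY, hyy]
      push_cast
      rfl
    have hTY : ‖T YY - S.J zz‖ ≤ 1 / 2 * ‖yy‖ := by
      have h1 : T YY - S.J zz = ∑ j ∈ Finset.range M, c j • (T ⟨y j, hyY j⟩ - S.J (z j)) := by
        simp only [YY, hzz]
        rw [map_sum, map_sum, ← Finset.sum_sub_distrib]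
        refine Finset.sum_congr rfl fun k _ => ?_
        rw [map_smul, map_smul, smul_sub]
      rw [h1]
      calc ‖∑ j ∈ Finset.range M, c j • (T ⟨y j, hyY j⟩ - S.J (z j))‖
          ≤ ∑ j ∈ Finset.range M, ‖c j • (T ⟨y j, hyY j⟩ - S.J (z j))‖ := norm_sum_le _ _
        _ ≤ ∑ j ∈ Finset.range M, (4 * ‖yy‖) * η := by
            refine Finset.sum_le_sum fun j hj => ?_
            rw [norm_smul, Real.norm_eq_abs]
            exact mul_le_mul (hcoef _ c j hj) (hz2 j) (norm_nonneg _) (by positivity)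
        _ = (M * η) * (4 * ‖yy‖) := by
            rw [Finset.sum_const, Finset.card_range, nsmul_eq_mul]; ring
        _ ≤ (1 / 8) * (4 * ‖yy‖) := by
            refine mul_le_mul_of_nonneg_right ?_ (by positivity)
            rw [hη, mul_one_div, div_le_div_iff₀ (by positivity) (by norm_num)]
            linarith
        _ = 1 / 2 * ‖yy‖ := by ring
    have hnY : ‖YY‖ = ‖yy‖ := by rw [← hYY]; rfl
    obtain ⟨hTa, hTb⟩ := hT1 YY
    rw [hnY] at hTa hTb
    have hz3 : ‖T YY‖ ≤ N zz + ‖T YY - S.J zz‖ := by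
      have := norm_add_le (S.J zz) (T YY - S.J zz)
      rw [add_sub_cancel, S.norm_J] at this
      exact this
    have hz4 : N zz ≤ ‖T YY‖ + ‖T YY - S.J zz‖ := by
      have := norm_sub_le (T YY) (T YY - S.J zz)
      rw [sub_sub_cancel, S.norm_J] at this
      exact this
    have hyz : ‖yy‖ ≤ 2 * N zz := by linarith
    have hzy : N zz ≤ (K + 1) * ‖yy‖ := by
      have := norm_nonneg yy
      nlinarith
    have hht := S.le_head_tail d zz
    have htl := S.tail_le d zz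
    have hNz := S.N_nonneg zz
    constructor
    · have := hf'.1
      linarith
    · have h1 : ∑ n ∈ Finset.range d, |zz n| * N (Finsupp.single n 1) ≤ d * N zz := by
        calc ∑ n ∈ Finset.range d, |zz n| * N (Finsupp.single n 1)
            ≤ ∑ n ∈ Finset.range d, N zz := Finset.sum_le_sum fun n _ => S.coord_le n zz
          _ = d * N zz := by rw [Finset.sum_const, Finset.card_range, nsmul_eq_mul]
      have h2 := hf'.2
      have h3 : C * N (tail d zz) ≤ C * (2 * N zz) := mul_le_mul_of_nonneg_left htl (by linarith)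
      calc 2 * ∑ n ∈ Finset.range d, |zz n| * N (Finsupp.single n 1)
            + 2 * ∑ i : Fin m, |f i (tail d zz)|
          ≤ 2 * (d * N zz) + 2 * (C * (2 * N zz)) := by linarith
        _ = (2 * d + 4 * C) * N zz := by ring
        _ ≤ (2 * d + 4 * C) * ((K + 1) * ‖yy‖) := mul_le_mul_of_nonneg_left hzy (by positivity)
        _ = ((2 * d + 4 * C) * (K + 1)) * ‖yy‖ := by ring
  obtain ⟨φ, hφ, δ', hδ', hl1⟩ := H1 X y (1 / (4 * C)) _ (by positivity) (fun n => (hy1 n).le)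
    hform hlow
  exact S.no_l1 n_hi (fun k => y (φ k)) (fun n => (hy1 _).le) δ' hδ' hl1

/-- H2, given the extraction theorem H1 -/
theorem reduction' (H1 : L1Extract) (N : (ℕ →₀ ℝ) → ℝ) (C : ℝ)
    (n_add : ∀ x y, N (x + y) ≤ N x + N y)
    (n_smul : ∀ (a : ℝ) x, N (a • x) = |a| * N x)
    (n_coord : ∀ x k, |x k| ≤ N x)
    (n_cut : ∀ x a b, N (cut a b x) ≤ N x)
    (n_low : ∀ n : ℕ, ∀ s : Finset ℕ, s.card ≤ n → ∀ x : ℕ → (ℕ →₀ ℝ),
      (∀ k ∈ s, ∀ i ∈ (x k).support, n ≤ i) → (∀ k ∈ s, ∀ l ∈ s, k < l → Lt (x k) (x l)) →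
      ∑ k ∈ s, N (x k) ≤ C * N (∑ k ∈ s, x k))
    (n_hi : ∀ y w : ℕ → (ℕ →₀ ℝ), Blk y → Blk w → ∀ ε : ℝ, 0 < ε →
      ∃ a ∈ Submodule.span ℝ (Set.range y), ∃ b ∈ Submodule.span ℝ (Set.range w),
        N (a - b) < ε * N (a + b))
    (n_join : ∀ M : ℕ, ∃ N0 : ℕ, ∀ x : Fin M → (ℕ →₀ ℝ), (∀ j, ∀ i ∈ (x j).support, N0 ≤ i) →
      ∃ (m : ℕ) (f : Fin m → ((ℕ →₀ ℝ) →ₗ[ℝ] ℝ)), ∀ c : Fin M → ℝ,
        N (∑ j, c j • x j) ≤ ∑ i, |f i (∑ j, c j • x j)| ∧
        ∑ i, |f i (∑ j, c j • x j)| ≤ C * N (∑ j, c j • x j)) :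
    ∃ (X : Type) (_ : NormedAddCommGroup X) (_ : NormedSpace ℝ X), CompleteSpace X ∧
    (∀ U W : Submodule ℝ X, IsClosed (U : Set X) → IsClosed (W : Set X) →
      ¬ FiniteDimensional ℝ U → ¬ FiniteDimensional ℝ W → Disjoint U W →
      ¬ IsClosed ((U ⊔ W : Submodule ℝ X) : Set X)) ∧
    ∃ e : ℕ → X,
      (∀ x : X, ∃! c : ℕ → ℝ,
        Tendsto (fun N => ∑ n ∈ Finset.range N, c n • e n) atTop (𝓝 x)) ∧
      ∀ Y : Submodule ℝ X, IsClosed (Y : Set X) → ¬ FiniteDimensional ℝ Y →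
        ∃ a b : ℕ → ℕ, (∀ k, a k ≤ b k ∧ b k < a (k + 1)) ∧
          ∀ K : ℕ, ¬ ∃ T : Y →L[ℝ] X,
            (∀ y : Y, ‖y‖ ≤ ‖T y‖ ∧ ‖T y‖ ≤ (K : ℝ) * ‖y‖) ∧
            ∀ y : Y, T y ∈
              (Submodule.span ℝ (e '' {n | n < a K ∨ b K < n})).topologicalClosure := by
  obtain ⟨X, i1, i2, i3, J, hJ, hd⟩ := exists_completion N n_add n_smul n_coord
  obtain ⟨S⟩ := exists_ctx n_coord n_cut J hJ hd
  refine ⟨X, i1, i2, i3, fun U W hU hW hU' hW' hd => S.hi n_hi U W hU hW hU' hW' hd,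
    fun n => S.J (Finsupp.single n 1), S.basis, ?_⟩
  intro Y _ hYfd
  have h := fun K d => S.tight H1 C n_low n_hi n_join Y hYfd K d
  choose b hb1 hb2 using h
  let a : ℕ → ℕ := fun n => Nat.rec 0 (fun k d => b k d + 1) n
  have ha : ∀ k, a (k + 1) = b k (a k) + 1 := fun k => rfl
  refine ⟨a, fun k => b k (a k), fun k => ⟨hb1 k (a k), ?_⟩, fun K => hb2 K (a K)⟩
  rw [ha]
  exact Nat.lt_succ_self _

end Pool.Agent.Helper64.Hit
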